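import Pool.Agent.H629.CG.Stm

/-!
# MP_e22585_pr (project CG of helper629): LNM and JEN (helper261)
-/

set_option autoImplicit false

namespace Pool.Agent.H261.CG.LNM

open MeasureTheory ProbabilityTheory Filter Topology Set
open scoped ENNReal NNReal
open Pool.Agent.H629.CG

theorem ex_rpow (x b : ℝ) : (ex x) ^ b = ex (b * x) := by
  rw [ex, ex, ENNReal.ofReal_rpow_of_pos (Real.exp_pos x), ← Real.exp_mul, mul_comm]

theorem ex_zero : ex 0 = 1 := by rw [ex, Real.exp_zero, ENNReal.ofReal_one]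

theorem ex_ne_top (x : ℝ) : ex x ≠ ∞ := ENNReal.ofReal_ne_top

theorem ex_pos (x : ℝ) : 0 < ex x := ENNReal.ofReal_pos.2 (Real.exp_pos x)

theorem ex_mono {x y : ℝ} (h : x ≤ y) : ex x ≤ ex y :=
  ENNReal.ofReal_le_ofReal (Real.exp_le_exp.2 h)

theorem t_LNM : S_LNM := by
  intro Ω _ P A X K h t ht b
  have hg : HasGaussianLaw (X t) P :=
    HasGaussianLaw.eval (X := fun (_ : Fin 1) ω => X t ω) (h.gauss 1 (fun _ => t) fun _ => ht) 0
  have hae := hg.aemeasurable
  have hP := hg.isProbabilityMeasure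
  have hmap := hg.map_eq_gaussianReal
  have hv : Var[X t; P] = K t t := by rw [← covariance_self hae, h.cov t ht t ht]
  have hK : 0 ≤ K t t := by rw [← hv]; exact variance_nonneg _ _
  rw [hv, h.mean t ht] at hmap
  have hm := mgf_gaussianReal hmap b
  have hint : Integrable (fun ω => Real.exp (b * X t ω)) P := by
    rw [← mgf_pos_iff, hm]
    exact Real.exp_pos _
  calc ∫⁻ ω, (ex (X t ω)) ^ b ∂P = ∫⁻ ω, ENNReal.ofReal (Real.exp (b * X t ω)) ∂P := by
        refine lintegral_congr fun ω => ?_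
        rw [ex_rpow]; rfl
    _ = ENNReal.ofReal (∫ ω, Real.exp (b * X t ω) ∂P) :=
        (ofReal_integral_eq_lintegral_ofReal hint
          (Filter.Eventually.of_forall fun _ => (Real.exp_pos _).le)).symm
    _ = ex ((b ^ 2 - b) / 2 * K t t) := by
        have h2 : ∫ ω, Real.exp (b * X t ω) ∂P = mgf (X t) P b := rfl
        rw [h2, hm, ex, Real.coe_toNNReal _ hK]
        congr 2
        ring

/-- Hölder in the form `(∫ g) ^ a ≤ μ(univ) ^ (a - 1) ∫ g ^ a`. -/
theorem jens {S : Type} [MeasurableSpace S] (ν : Measure S) (g : S → ℝ≥0∞) (hg : AEMeasurable g ν)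
    (h0 : ν univ ≠ 0) (h1 : ν univ ≠ ∞) (hp : ∀ s, g s ≠ 0) (ht : ∀ s, g s ≠ ∞) (a : ℝ)
    (ha : 1 ≤ a ∨ a < 0) :
    (∫⁻ s, g s ∂ν) ^ a ≤ (ν univ) ^ (a - 1) * ∫⁻ s, g s ^ a ∂ν := by
  rcases ha with ha | ha
  · have ha0 : 0 < a := by linarith
    have hH := ENNReal.lintegral_mul_norm_pow_le (μ := ν) (f := fun s => g s ^ a)
      (g := fun _ => (1 : ℝ≥0∞)) (hg.pow_const a) aemeasurable_const (p := a⁻¹) (q := 1 - a⁻¹)
      (by positivity) (sub_nonneg.2 (inv_le_one_of_one_le₀ ha)) (by ring)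
    simp only [ENNReal.one_rpow, mul_one, lintegral_const, one_mul] at hH
    have h2 : ∀ s, (g s ^ a) ^ a⁻¹ = g s := fun s => by
      rw [← ENNReal.rpow_mul, mul_inv_cancel₀ ha0.ne', ENNReal.rpow_one]
    simp only [h2] at hH
    calc (∫⁻ s, g s ∂ν) ^ a ≤ ((∫⁻ s, g s ^ a ∂ν) ^ a⁻¹ * (ν univ) ^ (1 - a⁻¹)) ^ a :=
          ENNReal.rpow_le_rpow hH ha0.le
      _ = (ν univ) ^ (a - 1) * ∫⁻ s, g s ^ a ∂ν := by
          rw [ENNReal.mul_rpow_of_nonneg _ _ ha0.le, ← ENNReal.rpow_mul, ← ENNReal.rpow_mul,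
            inv_mul_cancel₀ ha0.ne', ENNReal.rpow_one, mul_comm]
          congr 2
          rw [sub_mul, inv_mul_cancel₀ ha0.ne', one_mul]
  · obtain ⟨s, hs, rfl⟩ : ∃ s : ℝ, 0 < s ∧ a = -s := ⟨-a, by linarith, by ring⟩
    have hs1 : 0 < 1 + s := by linarith
    have hH := ENNReal.lintegral_mul_norm_pow_le (μ := ν) (f := g)
      (g := fun x => g x ^ (-s)) hg (hg.pow_const (-s)) (p := s / (1 + s)) (q := 1 / (1 + s))
      (by positivity) (by positivity) (by field_simp; ring)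
    have h2 : ∀ x, g x ^ (s / (1 + s)) * (g x ^ (-s)) ^ (1 / (1 + s)) = 1 := fun x => by
      rw [← ENNReal.rpow_mul, ← ENNReal.rpow_add _ _ (hp x) (ht x)]
      rw [show s / (1 + s) + -s * (1 / (1 + s)) = 0 by ring, ENNReal.rpow_zero]
    simp only [h2, lintegral_const, one_mul] at hH
    set G := ∫⁻ x, g x ∂ν with hG
    set H := ∫⁻ x, g x ^ (-s) ∂ν with hHd
    have h3 : (ν univ) ^ (1 + s) ≤ G ^ s * H := by
      calc (ν univ) ^ (1 + s) ≤ (G ^ (s / (1 + s)) * H ^ (1 / (1 + s))) ^ (1 + s) :=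
            ENNReal.rpow_le_rpow hH hs1.le
        _ = G ^ s * H := by
            rw [ENNReal.mul_rpow_of_nonneg _ _ hs1.le, ← ENNReal.rpow_mul, ← ENNReal.rpow_mul,
              div_mul_cancel₀ _ hs1.ne', div_mul_cancel₀ _ hs1.ne', ENNReal.rpow_one]
    by_cases hGt : G = ∞
    · rw [hGt, ENNReal.top_rpow_of_neg (by linarith)]
      exact bot_le
    have hG0 : G ≠ 0 := by
      intro hz
      rw [hG, lintegral_eq_zero_iff' hg] at hz
      have : ν {x | ¬ g x = (0 : S → ℝ≥0∞) x} = 0 := hz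
      have h4 : {x | ¬ g x = (0 : S → ℝ≥0∞) x} = univ := by
        ext x; simp [hp x]
      rw [h4] at this
      exact h0 this
    have h5 : G ^ (-s) * (G ^ s * H) = H := by
      rw [← mul_assoc, ← ENNReal.rpow_add _ _ hG0 hGt, neg_add_cancel, ENNReal.rpow_zero, one_mul]
    have h6 : (ν univ) ^ (-s - 1) * (ν univ) ^ (1 + s) = 1 := by
      rw [← ENNReal.rpow_add _ _ h0 h1, show -s - 1 + (1 + s) = 0 by ring, ENNReal.rpow_zero]
    calc G ^ (-s) = G ^ (-s) * ((ν univ) ^ (-s - 1) * (ν univ) ^ (1 + s)) := by rw [h6, mul_one]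
      _ ≤ G ^ (-s) * ((ν univ) ^ (-s - 1) * (G ^ s * H)) := by gcongr
      _ = (ν univ) ^ (-s - 1) * (G ^ (-s) * (G ^ s * H)) := by ring
      _ = (ν univ) ^ (-s - 1) * H := by rw [h5]

section

variable {Ω : Type} [MeasurableSpace Ω] {P : Measure Ω} {A : Set ℝ}
  {X : ℝ → Ω → ℝ} {K : ℝ → ℝ → ℝ}

theorem meas_ex (h : LNF A P X K) : Measurable (Function.uncurry fun (u : ℝ) ω => ex (X u ω)) :=
  ENNReal.measurable_ofReal.comp (Real.measurable_exp.comp h.meas)

theorem meas_ex' (h : LNF A P X K) : Measurable (Function.uncurry fun ω (u : ℝ) => ex (X u ω)) :=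
  (meas_ex h).comp measurable_swap

theorem meas_mas (h : LNF A P X K) : Measurable (mas A X) := by
  have := (meas_ex' h).lintegral_prod_right (ν := volume.restrict A)
  exact this

/-- Tonelli. -/
theorem ton [IsProbabilityMeasure P] (h : LNF A P X K) (hA : MeasurableSet A) (a : ℝ) :
    ∫⁻ ω, (∫⁻ u in A, (ex (X u ω)) ^ a) ∂P = ∫⁻ u in A, ex ((a ^ 2 - a) / 2 * K u u) := by
  rw [lintegral_lintegral_swap]
  · refine setLIntegral_congr_fun hA fun u hu => ?_
    exact t_LNM Ω P A X K h u hu a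
  · exact ((meas_ex' h).pow_const a).aemeasurable

theorem mom_le [IsProbabilityMeasure P] (h : LNF A P X K) (hA : MeasurableSet A)
    (h0 : 0 < volume A) (h1 : volume A ≠ ∞) (a : ℝ) (ha : 1 ≤ a ∨ a < 0) :
    mom P A X a ≤ (volume A) ^ (a - 1) * ∫⁻ u in A, ex ((a ^ 2 - a) / 2 * K u u) := by
  have hm : ∀ ω, Measurable fun u => ex (X u ω) := fun ω =>
    (meas_ex' h).comp measurable_prodMk_left
  calc mom P A X a = ∫⁻ ω, (∫⁻ u in A, ex (X u ω)) ^ a ∂P := rfl
    _ ≤ ∫⁻ ω, ((volume A) ^ (a - 1) * ∫⁻ u in A, (ex (X u ω)) ^ a) ∂P := by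
        refine lintegral_mono fun ω => ?_
        have := jens (volume.restrict A) (fun u => ex (X u ω)) (hm ω).aemeasurable
          (by rw [Measure.restrict_apply_univ]; exact h0.ne')
          (by rw [Measure.restrict_apply_univ]; exact h1) (fun u => (ex_pos _).ne')
          (fun u => ex_ne_top _) a ha
        rwa [Measure.restrict_apply_univ] at this
    _ = (volume A) ^ (a - 1) * ∫⁻ ω, (∫⁻ u in A, (ex (X u ω)) ^ a) ∂P := by
        rw [lintegral_const_mul]
        exact ((meas_ex' h).pow_const a).lintegral_prod_right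
    _ = _ := by rw [ton h hA]

end

theorem t_JEN : S_JEN := by
  intro Ω _ P _ A X K hA h0 h1 h a
  have hone : mom P A X 1 = volume A := by
    have h2 := ton h hA 1
    simp only [ENNReal.rpow_one] at h2
    have h3 : mom P A X 1 = ∫⁻ ω, (∫⁻ u in A, ex (X u ω)) ∂P := by
      refine lintegral_congr fun ω => ?_
      rw [ENNReal.rpow_one]; rfl
    rw [h3, h2]
    norm_num [ex_zero]
  refine ⟨fun V hV ha => ?_, fun ha0 ha1 => ?_, hone⟩
  · by_cases haz : a = 0
    · subst haz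
      have h3 : mom P A X 0 = 1 := by
        simp [mom]
      rw [h3]
      norm_num [ex_zero]
    have ha' : 1 ≤ a ∨ a < 0 := ha.imp_right fun h => lt_of_le_of_ne h haz
    have hc : 0 ≤ (a ^ 2 - a) / 2 := by
      rcases ha' with h | h <;> nlinarith
    calc mom P A X a ≤ (volume A) ^ (a - 1) * ∫⁻ u in A, ex ((a ^ 2 - a) / 2 * K u u) :=
          mom_le h hA h0 h1 a ha'
      _ ≤ (volume A) ^ (a - 1) * ∫⁻ _ in A, ex ((a ^ 2 - a) / 2 * V) := by
          gcongr 1
          refine setLIntegral_mono measurable_const fun u hu => ?_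
          exact ex_mono (mul_le_mul_of_nonneg_left (hV u hu) hc)
      _ = (volume A) ^ a * ex ((a ^ 2 - a) / 2 * V) := by
          rw [setLIntegral_const, mul_comm (ex _), ← mul_assoc]
          congr 1
          conv_lhs => rw [← ENNReal.rpow_one (volume A), ← ENNReal.rpow_mul, one_mul]
          rw [← ENNReal.rpow_add _ _ h0.ne' h1, sub_add_cancel]
  · have hH := ENNReal.lintegral_mul_norm_pow_le (μ := P) (f := mas A X)
      (g := fun _ => (1 : ℝ≥0∞)) (meas_mas h).aemeasurable aemeasurable_const (p := a) (q := 1 - a)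
      ha0 (sub_nonneg.2 ha1) (by ring)
    simp only [ENNReal.one_rpow, mul_one, lintegral_const, measure_univ] at hH
    have h4 : ∫⁻ ω, mas A X ω ∂P = volume A := by
      rw [← hone, mom]
      simp only [ENNReal.rpow_one]
    rw [h4] at hH
    exact hH

end Pool.Agent.H261.CG.LNM
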